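import Mathlib

/-!
Operators on `ℓ²(X)`: matrix entries, restriction, permutations, amplification; the reduced
group C*-algebra with operator coefficients.
-/

set_option autoImplicit false
set_option linter.unusedSectionVars false
set_option maxHeartbeats 400000

namespace Pool.Agent.H812R3.KP

open scoped InnerProductSpace ENNReal

noncomputable abbrev L2 (X : Type) := lp (fun _ : X => ℂ) 2
noncomputable abbrev B (X : Type) := L2 X →L[ℂ] L2 X

/-- the basis vector at `x` -/
noncomputable def dl {X : Type} (x : X) : L2 X :=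
  letI := Classical.decEq X
  lp.single 2 x (1 : ℂ)

theorem dl_eq_single {X : Type} [DecidableEq X] (x : X) :
    (lp.single 2 x (1 : ℂ) : L2 X) = dl x := by
  unfold dl
  congr 1
  exact Subsingleton.elim _ _

theorem dl_apply {X : Type} [DecidableEq X] (x y : X) : (dl x : L2 X) y = if y = x then 1 else 0 := by
  rw [← dl_eq_single, lp.single_apply]
  by_cases h : y = x
  · subst h; simp
  · simp [h]

theorem inner_dl {X : Type} (x : X) (ξ : L2 X) : ⟪dl x, ξ⟫_ℂ = ξ x := by
  classical
  rw [← dl_eq_single, lp.inner_single_left]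
  simp

theorem norm_dl {X : Type} (x : X) : ‖(dl x : L2 X)‖ = 1 := by
  classical
  rw [← dl_eq_single, lp.norm_single (by norm_num)]
  simp

/-- matrix entries -/
noncomputable def ent {X : Type} (T : B X) (x y : X) : ℂ := (T (dl y)) x

theorem ent_eq_inner {X : Type} (T : B X) (x y : X) : ent T x y = ⟪dl x, T (dl y)⟫_ℂ :=
  (inner_dl _ _).symm

theorem apply_eq_inner {X : Type} (T : B X) (ξ : L2 X) (x : X) :
    (T ξ) x = ⟪(star T) (dl x), ξ⟫_ℂ := by
  rw [ContinuousLinearMap.star_eq_adjoint, ContinuousLinearMap.adjoint_inner_left, inner_dl]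

theorem ent_star {X : Type} (T : B X) (x y : X) :
    ent (star T) x y = (starRingEnd ℂ) (ent T y x) := by
  rw [ent_eq_inner, ent_eq_inner, ContinuousLinearMap.star_eq_adjoint,
    ContinuousLinearMap.adjoint_inner_right, inner_conj_symm]

theorem hasSum_dl {X : Type} (ξ : L2 X) : HasSum (fun x => ξ x • (dl x : L2 X)) ξ := by
  classical
  have h := lp.hasSum_single (p := 2) (E := fun _ : X => ℂ) (by norm_num) ξ
  convert h using 2 with x
  rw [← dl_eq_single, ← lp.single_smul]
  simp

theorem hasSum_apply {X : Type} (T : B X) (ξ : L2 X) (x : X) :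
    HasSum (fun z => ent T x z * ξ z) ((T ξ) x) := by
  have h1 := (hasSum_dl ξ).mapL T
  have h2 := h1.mapL (innerSL ℂ (dl x))
  have e1 : (innerSL ℂ (dl x)) (T ξ) = (T ξ) x := by
    rw [innerSL_apply_apply, inner_dl]
  rw [e1] at h2
  have e2 : (fun z => ent T x z * ξ z) = fun z => (innerSL ℂ (dl x)) (T (ξ z • (dl z : L2 X))) := by
    funext z
    rw [map_smul, innerSL_apply_apply, inner_smul_right, inner_dl, ent, mul_comm]
  rw [e2]
  exact h2

theorem ent_mul {X : Type} (T S : B X) (x y : X) :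
    HasSum (fun z => ent T x z * ent S z y) (ent (T * S) x y) :=
  hasSum_apply T (S (dl y)) x

theorem ent_ext {X : Type} {T S : B X} (h : ∀ x y, ent T x y = ent S x y) : T = S := by
  ext ξ x
  have h1 := hasSum_apply T ξ x
  have h2 := hasSum_apply S ξ x
  simp only [h] at h1
  exact h1.unique h2

/-- matrix entries as a continuous functional -/
noncomputable def entL {X : Type} (x y : X) : B X →L[ℂ] ℂ :=
  (innerSL ℂ (dl x)).comp (ContinuousLinearMap.apply ℂ (L2 X) (dl y))

theorem entL_apply {X : Type} (T : B X) (x y : X) : entL x y T = ent T x y := by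
  simp [entL, ent_eq_inner]

@[simp] theorem ent_add {X : Type} (T S : B X) (x y : X) : ent (T + S) x y = ent T x y + ent S x y := by
  simp [← entL_apply]
@[simp] theorem ent_sub {X : Type} (T S : B X) (x y : X) : ent (T - S) x y = ent T x y - ent S x y := by
  simp [← entL_apply]
@[simp] theorem ent_smul {X : Type} (c : ℂ) (T : B X) (x y : X) : ent (c • T) x y = c * ent T x y := by
  simp [← entL_apply]
@[simp] theorem ent_zero {X : Type} (x y : X) : ent (0 : B X) x y = 0 := by
  simp [← entL_apply]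
theorem ent_sum {X : Type} {ι : Type} (s : Finset ι) (T : ι → B X) (x y : X) :
    ent (∑ i ∈ s, T i) x y = ∑ i ∈ s, ent (T i) x y := by
  simp [← entL_apply]
theorem ent_one {X : Type} [DecidableEq X] (x y : X) : ent (1 : B X) x y = if x = y then 1 else 0 := by
  simp [ent, dl_apply]

theorem norm_ent_le {X : Type} (T : B X) (x y : X) : ‖ent T x y‖ ≤ ‖T‖ := by
  rw [ent_eq_inner]
  calc ‖⟪dl x, T (dl y)⟫_ℂ‖ ≤ ‖(dl x : L2 X)‖ * ‖T (dl y)‖ := norm_inner_le_norm _ _
    _ ≤ 1 * (‖T‖ * 1) := by
        gcongr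
        · rw [norm_dl]
        · simpa [norm_dl] using T.le_opNorm (dl y)
    _ = ‖T‖ := by ring

/-! ### restriction -/

theorem norm_sq_eq {X : Type} (x : L2 X) : ‖x‖ ^ 2 = ∑' a, ‖x a‖ ^ 2 := by
  have h := lp.norm_rpow_eq_tsum (p := 2) (by norm_num) x
  simpa using h

theorem summable_sq {X : Type} (x : L2 X) : Summable fun a => ‖x a‖ ^ 2 := by
  have h := (lp.memℓp x)
  rw [memℓp_gen_iff (by norm_num)] at h
  simpa using h

theorem mem_of_summable {X : Type} {f : X → ℂ} (h : Summable fun a => ‖f a‖ ^ 2) :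
    Memℓp (fun a => f a) 2 := by
  rw [memℓp_gen_iff (by norm_num)]
  simpa using h

/-- restriction along an injection, linear map -/
noncomputable def pullL {X Y : Type} (f : X → Y) (hf : Function.Injective f) : L2 Y →ₗ[ℂ] L2 X where
  toFun ξ := ⟨fun x => ξ (f x), mem_of_summable ((summable_sq ξ).comp_injective hf)⟩
  map_add' _ _ := rfl
  map_smul' _ _ := rfl

/-- restriction along an injection -/
noncomputable def pull {X Y : Type} (f : X → Y) (hf : Function.Injective f) : L2 Y →L[ℂ] L2 X :=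
  (pullL f hf).mkContinuous 1 (by
    intro x
    have h : ‖pullL f hf x‖ ^ 2 ≤ ‖x‖ ^ 2 := by
      rw [norm_sq_eq, norm_sq_eq]
      exact Summable.tsum_le_tsum_of_inj f hf (fun c _ => by positivity) (fun a => le_rfl)
        ((summable_sq x).comp_injective hf) (summable_sq x)
    rw [one_mul]
    exact (sq_le_sq₀ (norm_nonneg _) (norm_nonneg _)).1 h)

theorem pull_apply {X Y : Type} (f : X → Y) (hf : Function.Injective f) (ξ : L2 Y) (x : X) :
    (pull f hf ξ) x = ξ (f x) := rfl

theorem norm_pull_le {X Y : Type} (f : X → Y) (hf : Function.Injective f) : ‖pull f hf‖ ≤ 1 :=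
  LinearMap.mkContinuous_norm_le _ (by norm_num) _

/-- extension by zero along an injection -/
noncomputable def push {X Y : Type} (f : X → Y) (hf : Function.Injective f) : L2 X →L[ℂ] L2 Y :=
  ContinuousLinearMap.adjoint (pull f hf)

theorem push_dl {X Y : Type} (f : X → Y) (hf : Function.Injective f) (x : X) :
    push f hf (dl x) = dl (f x) := by
  classical
  ext y
  rw [← inner_dl y, push, ContinuousLinearMap.adjoint_inner_right, ← inner_conj_symm, inner_dl,
    pull_apply, dl_apply, dl_apply]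
  by_cases h : f x = y
  · subst h; simp
  · rw [if_neg h, if_neg (fun h' => h h'.symm)]; simp

/-- `T ↦ J* T J` -/
noncomputable def cmp {X Y : Type} (f : X → Y) (hf : Function.Injective f) : B Y →L[ℂ] B X :=
  ((ContinuousLinearMap.compL ℂ (L2 X) (L2 Y) (L2 X)) (pull f hf)).comp
    ((ContinuousLinearMap.compL ℂ (L2 X) (L2 Y) (L2 Y)).flip (push f hf))

theorem cmp_apply {X Y : Type} (f : X → Y) (hf : Function.Injective f) (T : B Y) :
    cmp f hf T = (pull f hf).comp (T.comp (push f hf)) := rfl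

theorem ent_cmp {X Y : Type} (f : X → Y) (hf : Function.Injective f) (T : B Y) (x y : X) :
    ent (cmp f hf T) x y = ent T (f x) (f y) := by
  simp only [ent, cmp_apply, ContinuousLinearMap.comp_apply, push_dl, pull_apply]

/-- `T ↦ J T J*` -/
noncomputable def xt {X Y : Type} (f : X → Y) (hf : Function.Injective f) : B X →L[ℂ] B Y :=
  ((ContinuousLinearMap.compL ℂ (L2 Y) (L2 X) (L2 Y)) (push f hf)).comp
    ((ContinuousLinearMap.compL ℂ (L2 Y) (L2 X) (L2 X)).flip (pull f hf))

theorem xt_apply {X Y : Type} (f : X → Y) (hf : Function.Injective f) (T : B X) :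
    xt f hf T = (push f hf).comp (T.comp (pull f hf)) := rfl

/-! ### permutations -/

/-- permutation operators -/
noncomputable def perm {X : Type} (σ : Equiv.Perm X) : B X := pull σ.symm σ.symm.injective

theorem perm_apply {X : Type} (σ : Equiv.Perm X) (ξ : L2 X) (x : X) :
    (perm σ ξ) x = ξ (σ.symm x) := rfl

theorem perm_dl {X : Type} (σ : Equiv.Perm X) (x : X) : perm σ (dl x) = dl (σ x) := by
  classical
  ext y
  rw [perm_apply, dl_apply, dl_apply]
  simp only [Equiv.symm_apply_eq]

theorem ent_perm_mul {X : Type} (σ : Equiv.Perm X) (T : B X) (x y : X) :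
    ent (perm σ * T) x y = ent T (σ.symm x) y := rfl

theorem ent_mul_perm {X : Type} (σ : Equiv.Perm X) (T : B X) (x y : X) :
    ent (T * perm σ) x y = ent T x (σ y) := by
  simp only [ent, mul_apply_eq_comp, perm_dl]

theorem perm_one {X : Type} : perm (1 : Equiv.Perm X) = 1 := rfl

theorem perm_mul {X : Type} (σ τ : Equiv.Perm X) : perm (σ * τ) = perm σ * perm τ := rfl

theorem ent_perm {X : Type} [DecidableEq X] (σ : Equiv.Perm X) (x y : X) :
    ent (perm σ) x y = if x = σ y then 1 else 0 := by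
  simp only [ent, perm_dl, dl_apply]

theorem star_perm {X : Type} (σ : Equiv.Perm X) : star (perm σ) = perm σ⁻¹ := by
  classical
  apply ent_ext
  intro x y
  rw [ent_star, ent_perm, ent_perm]
  by_cases h : y = σ x
  · subst h; simp
  · rw [if_neg h, if_neg]
    · simp
    · rintro rfl; simp at h

/-! ### amplification -/

theorem amp_inj {X Z Y : Type} (e : X × Z ≃ Y) (z : Z) : Function.Injective fun x => e (x, z) := by
  intro a b h
  simpa using h

/-- the slice of `ξ` at `z` -/
noncomputable def slc {X Z Y : Type} (e : X × Z ≃ Y) (z : Z) : L2 Y →L[ℂ] L2 X :=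
  pull (fun x => e (x, z)) (amp_inj e z)

theorem slc_norm_sq {X Z Y : Type} (e : X × Z ≃ Y) (z : Z) (ξ : L2 Y) :
    ‖slc e z ξ‖ ^ 2 = ∑' x, ‖ξ (e (x, z))‖ ^ 2 := norm_sq_eq _

theorem slc_hs {X Z Y : Type} (e : X × Z ≃ Y) (ξ : L2 Y) :
    Summable (fun p : Z × X => ‖ξ (e (p.2, p.1))‖ ^ 2) :=
  (summable_sq ξ).comp_injective ((Equiv.prodComm Z X).trans e).injective

theorem slc_hz {X Z Y : Type} (e : X × Z ≃ Y) (ξ : L2 Y) : Summable fun z => ‖slc e z ξ‖ ^ 2 := by
  simp only [slc_norm_sq]
  exact (slc_hs e ξ).prod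

theorem slc_tsum {X Z Y : Type} (e : X × Z ≃ Y) (ξ : L2 Y) : ∑' z, ‖slc e z ξ‖ ^ 2 = ‖ξ‖ ^ 2 := by
  simp only [slc_norm_sq]
  rw [norm_sq_eq ξ, ← Equiv.tsum_eq ((Equiv.prodComm Z X).trans e) fun y => ‖ξ y‖ ^ 2]
  exact ((slc_hs e ξ).tsum_prod).symm

theorem slc_le {X Z Y : Type} (e : X × Z ≃ Y) (T : B X) (ξ : L2 Y) (z : Z) :
    ‖T (slc e z ξ)‖ ^ 2 ≤ ‖T‖ ^ 2 * ‖slc e z ξ‖ ^ 2 := by
  rw [← mul_pow]
  exact pow_le_pow_left₀ (norm_nonneg _) (T.le_opNorm _) 2

theorem slc_hz2 {X Z Y : Type} (e : X × Z ≃ Y) (T : B X) (ξ : L2 Y) :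
    Summable fun z => ‖T (slc e z ξ)‖ ^ 2 :=
  Summable.of_nonneg_of_le (fun z => by positivity) (slc_le e T ξ) ((slc_hz e ξ).mul_left _)

theorem slc_hT {X Z Y : Type} (e : X × Z ≃ Y) (T : B X) (ξ : L2 Y) :
    Summable fun p : Z × X => ‖(T (slc e p.1 ξ)) p.2‖ ^ 2 := by
  rw [summable_prod_of_nonneg (fun p => by positivity)]
  refine ⟨fun z => summable_sq (T (slc e z ξ)), ?_⟩
  have h1 : (fun z => ‖T (slc e z ξ)‖ ^ 2) = fun z => ∑' x, ‖(T (slc e z ξ)) x‖ ^ 2 :=
    funext fun z => norm_sq_eq _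
  have h2 := slc_hz2 e T ξ
  rw [h1] at h2
  exact h2

theorem slc_hY {X Z Y : Type} (e : X × Z ≃ Y) (T : B X) (ξ : L2 Y) :
    Summable fun y : Y => ‖(T (slc e (e.symm y).2 ξ)) (e.symm y).1‖ ^ 2 := by
  have hi : Function.Injective (fun y : Y => ((e.symm y).2, (e.symm y).1)) := by
    intro a b h
    simp only [Prod.mk.injEq] at h
    exact e.symm.injective (Prod.ext h.2 h.1)
  have h := (slc_hT e T ξ).comp_injective hi
  simpa only [Function.comp_def] using h

/-- the amplification, linear map -/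
noncomputable def ampS {X Z Y : Type} (e : X × Z ≃ Y) (T : B X) : L2 Y →ₗ[ℂ] L2 Y where
  toFun := fun ξ => ⟨fun y => (T (slc e (e.symm y).2 ξ)) (e.symm y).1, mem_of_summable (slc_hY e T ξ)⟩
  map_add' := by
    intro ξ η
    ext y
    simp
  map_smul' := by
    intro c ξ
    ext y
    simp

theorem ampS_apply {X Z Y : Type} (e : X × Z ≃ Y) (T : B X) (ξ : L2 Y) (x : X) (z : Z) :
    (ampS e T ξ) (e (x, z)) = (T (slc e z ξ)) x := by
  change (T (slc e (e.symm (e (x, z))).2 ξ)) (e.symm (e (x, z))).1 = _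
  rw [e.symm_apply_apply]

theorem ampS_norm {X Z Y : Type} (e : X × Z ≃ Y) (T : B X) (ξ : L2 Y) :
    ‖ampS e T ξ‖ ≤ ‖T‖ * ‖ξ‖ := by
  have h : ‖ampS e T ξ‖ ^ 2 ≤ (‖T‖ * ‖ξ‖) ^ 2 := by
    calc ‖ampS e T ξ‖ ^ 2 = ∑' y, ‖(ampS e T ξ) y‖ ^ 2 := norm_sq_eq _
      _ = ∑' p : Z × X, ‖(ampS e T ξ) (((Equiv.prodComm Z X).trans e) p)‖ ^ 2 :=
          (Equiv.tsum_eq ((Equiv.prodComm Z X).trans e) fun y => ‖(ampS e T ξ) y‖ ^ 2).symm
      _ = ∑' p : Z × X, ‖(T (slc e p.1 ξ)) p.2‖ ^ 2 := by
          refine tsum_congr ?_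
          rintro ⟨z, x⟩
          have : ((Equiv.prodComm Z X).trans e) (z, x) = e (x, z) := rfl
          rw [this, ampS_apply]
      _ = ∑' z, ‖T (slc e z ξ)‖ ^ 2 := by
          rw [(slc_hT e T ξ).tsum_prod]
          exact tsum_congr fun z => (norm_sq_eq (T (slc e z ξ))).symm
      _ ≤ ∑' z, ‖T‖ ^ 2 * ‖slc e z ξ‖ ^ 2 :=
          (slc_hz2 e T ξ).tsum_le_tsum (slc_le e T ξ) ((slc_hz e ξ).mul_left _)
      _ = ‖T‖ ^ 2 * ∑' z, ‖slc e z ξ‖ ^ 2 := by rw [tsum_mul_left]
      _ = ‖T‖ ^ 2 * ‖ξ‖ ^ 2 := by rw [slc_tsum]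
      _ = (‖T‖ * ‖ξ‖) ^ 2 := by ring
  exact (sq_le_sq₀ (norm_nonneg _) (by positivity)).1 h

/-- `T ⊗ 1`, with `Y = X × Z` through `e` -/
theorem exists_amp {X Z Y : Type} (e : X × Z ≃ Y) (T : B X) :
    ∃ S : B Y, (∀ ξ : L2 Y, ∀ x z, (S ξ) (e (x, z)) = (T (pull (fun x => e (x, z)) (amp_inj e z) ξ)) x)
      ∧ ‖S‖ ≤ ‖T‖ :=
  ⟨(ampS e T).mkContinuous ‖T‖ (ampS_norm e T), fun ξ x z => ampS_apply e T ξ x z,
    (ampS e T).mkContinuous_norm_le (norm_nonneg _) (ampS_norm e T)⟩

noncomputable def ampF {X Z Y : Type} (e : X × Z ≃ Y) (T : B X) : B Y := (exists_amp e T).choose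

theorem ampF_apply {X Z Y : Type} (e : X × Z ≃ Y) (T : B X) (ξ : L2 Y) (x : X) (z : Z) :
    (ampF e T ξ) (e (x, z)) = (T (pull (fun x => e (x, z)) (amp_inj e z) ξ)) x :=
  (exists_amp e T).choose_spec.1 ξ x z

theorem norm_ampF_le {X Z Y : Type} (e : X × Z ≃ Y) (T : B X) : ‖ampF e T‖ ≤ ‖T‖ :=
  (exists_amp e T).choose_spec.2

theorem ampF_ext {X Z Y : Type} (e : X × Z ≃ Y) {ξ η : L2 Y}
    (h : ∀ x z, ξ (e (x, z)) = η (e (x, z))) : ξ = η := by
  ext y
  have := h (e.symm y).1 (e.symm y).2
  simpa using this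

theorem ent_ampF {X Z Y : Type} [DecidableEq Z] (e : X × Z ≃ Y) (T : B X) (x x' : X) (z z' : Z) :
    ent (ampF e T) (e (x, z)) (e (x', z')) = if z = z' then ent T x x' else 0 := by
  classical
  rw [ent, ampF_apply]
  by_cases h : z = z'
  · subst h
    rw [if_pos rfl, ent]
    have : pull (fun x => e (x, z)) (amp_inj e z) (dl (e (x', z))) = dl x' := by
      ext w
      rw [pull_apply, dl_apply, dl_apply]
      simp
    rw [this]
  · rw [if_neg h]
    have : pull (fun x => e (x, z)) (amp_inj e z) (dl (e (x', z'))) = 0 := by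
      ext w
      rw [pull_apply, dl_apply]
      simp [h]
    rw [this]
    simp

/-- `T ↦ T ⊗ 1` as a continuous linear map -/
noncomputable def amp {X Z Y : Type} (e : X × Z ≃ Y) : B X →L[ℂ] B Y :=
  LinearMap.mkContinuous
    { toFun := ampF e
      map_add' := by
        intro S T
        ext ξ : 1
        apply ampF_ext e
        intro x z
        rw [add_apply, lp.coeFn_add, Pi.add_apply, ampF_apply, ampF_apply,
          ampF_apply]
        rfl
      map_smul' := by
        intro c T
        ext ξ : 1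
        apply ampF_ext e
        intro x z
        rw [smul_apply, lp.coeFn_smul, Pi.smul_apply, ampF_apply, ampF_apply]
        rfl } 1 (by
    intro T
    rw [one_mul]
    exact norm_ampF_le e T)

theorem amp_apply {X Z Y : Type} (e : X × Z ≃ Y) (T : B X) (ξ : L2 Y) (x : X) (z : Z) :
    (amp e T ξ) (e (x, z)) = (T (pull (fun x => e (x, z)) (amp_inj e z) ξ)) x :=
  ampF_apply e T ξ x z

theorem ent_amp {X Z Y : Type} [DecidableEq Z] (e : X × Z ≃ Y) (T : B X) (x x' : X) (z z' : Z) :
    ent (amp e T) (e (x, z)) (e (x', z')) = if z = z' then ent T x x' else 0 :=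
  ent_ampF e T x x' z z'

theorem amp_mul {X Z Y : Type} (e : X × Z ≃ Y) (S T : B X) : amp e (S * T) = amp e S * amp e T := by
  ext ξ : 1
  apply ampF_ext e
  intro x z
  have h1 : pull (fun x => e (x, z)) (amp_inj e z) ((amp e T) ξ)
      = T (pull (fun x => e (x, z)) (amp_inj e z) ξ) := by
    ext w
    rw [pull_apply, amp_apply]
  rw [mul_apply_eq_comp, amp_apply, amp_apply, h1, mul_apply_eq_comp]

theorem amp_one {X Z Y : Type} (e : X × Z ≃ Y) : amp e (1 : B X) = 1 := by
  ext ξ : 1
  apply ampF_ext e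
  intro x z
  rw [amp_apply]
  rfl

theorem amp_star {X Z Y : Type} (e : X × Z ≃ Y) (T : B X) : amp e (star T) = star (amp e T) := by
  classical
  apply ent_ext
  intro a b
  obtain ⟨⟨x, z⟩, rfl⟩ := e.surjective a
  obtain ⟨⟨x', z'⟩, rfl⟩ := e.surjective b
  rw [ent_star, ent_amp, ent_amp, ent_star]
  by_cases h : z = z'
  · subst h; simp
  · rw [if_neg h, if_neg (fun h' => h h'.symm)]; simp

/-! ### cutting down -/

/-- projection onto the functions supported on `S` -/
noncomputable def cut {X : Type} (S : Set X) : B X :=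
  (push (Subtype.val : S → X) Subtype.val_injective).comp (pull (Subtype.val : S → X)
    Subtype.val_injective)

open Classical in
theorem cut_apply {X : Type} (S : Set X) (ξ : L2 X) (x : X) :
    (cut S ξ) x = if x ∈ S then ξ x else 0 := by
  rw [← inner_dl x, cut, ContinuousLinearMap.comp_apply, push,
    ContinuousLinearMap.adjoint_inner_right]
  by_cases h : x ∈ S
  · have : pull (Subtype.val : S → X) Subtype.val_injective (dl x) = dl ⟨x, h⟩ := by
      ext w
      rw [pull_apply, dl_apply, dl_apply]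
      simp only [Subtype.ext_iff]
    rw [this, inner_dl, pull_apply, if_pos h]
  · have : pull (Subtype.val : S → X) Subtype.val_injective (dl x) = 0 := by
      ext w
      rw [pull_apply, dl_apply, if_neg]
      · rfl
      · rintro rfl
        exact h w.2
    rw [this, inner_zero_left, if_neg h]

/-! ### the group algebra -/

section grp
variable {G : Type} [Group G] {I : Type}

/-- left translation on `G × I` -/
def lt (I : Type) (g : G) : Equiv.Perm (G × I) := (Equiv.mulLeft g).prodCongr (Equiv.refl I)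

/-- right translation on `G × I` -/
def rt (I : Type) (g : G) : Equiv.Perm (G × I) := (Equiv.mulRight g).prodCongr (Equiv.refl I)

/-- `1 ⊗ a` -/
noncomputable def iota (G : Type) {I : Type} : B I →L[ℂ] B (G × I) := amp (Equiv.prodComm I G)

theorem ent_iota [DecidableEq G] (a : B I) (x y : G) (i j : I) :
    ent (iota G a) (x, i) (y, j) = if x = y then ent a i j else 0 :=
  ent_amp (Equiv.prodComm I G) a i j x y

/-- `λ_g ⊗ a` -/
noncomputable def mono (g : G) (a : B I) : B (G × I) := perm (lt I g) * iota G a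

theorem ent_mono [DecidableEq G] (g : G) (a : B I) (x y : G) (i j : I) :
    ent (mono g a) (x, i) (y, j) = if x = g * y then ent a i j else 0 := by
  rw [mono, ent_perm_mul]
  have : (lt I g).symm (x, i) = (g⁻¹ * x, i) := rfl
  rw [this, ent_iota]
  simp only [inv_mul_eq_iff_eq_mul]

theorem iota_perm (g : G) (a : B I) : iota G a * perm (lt I g) = perm (lt I g) * iota G a := by
  classical
  apply ent_ext
  rintro ⟨x, i⟩ ⟨y, j⟩
  rw [ent_mul_perm, ent_perm_mul]
  have h1 : (lt I g).symm (x, i) = (g⁻¹ * x, i) := rfl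
  have h2 : (lt I g) (y, j) = (g * y, j) := rfl
  rw [h1, h2, ent_iota, ent_iota]
  simp only [inv_mul_eq_iff_eq_mul]

theorem mono_mul (g h : G) (a b : B I) : mono g a * mono h b = mono (g * h) (a * b) := by
  have h1 : lt I (g * h) = lt I g * lt I h := by
    ext x <;> simp [lt, mul_assoc]
  have h2 : iota G (a * b) = iota G a * iota G b := amp_mul _ _ _
  rw [mono, mono, mono, h1, perm_mul, h2, mul_assoc, ← mul_assoc (iota G a), iota_perm]
  simp only [mul_assoc]

theorem star_mono (g : G) (a : B I) : star (mono g a) = mono g⁻¹ (star a) := by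
  classical
  apply ent_ext
  rintro ⟨x, i⟩ ⟨y, j⟩
  rw [ent_star, ent_mono, ent_mono, ent_star]
  by_cases h : y = g * x
  · subst h; simp
  · rw [if_neg h, if_neg]
    · simp
    · rintro rfl; simp at h

theorem mono_one_one : mono (1 : G) (1 : B I) = 1 := by
  rw [mono, iota, amp_one, mul_one]
  have : lt I (1 : G) = 1 := by
    ext x <;> simp [lt]
  rw [this, perm_one]

/-- finite sums -/
noncomputable def A0 (K : Subgroup G) (I : Type) : StarSubalgebra ℂ (B (G × I)) where
  carrier := Submodule.span ℂ {T : B (G × I) | ∃ g ∈ K, ∃ a : B I, T = mono g a}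
  mul_mem' := by
    intro S T hS hT
    induction hS, hT using Submodule.span_induction₂ with
    | mem_mem x y hx hy =>
      obtain ⟨g, hg, a, rfl⟩ := hx
      obtain ⟨h, hh, b, rfl⟩ := hy
      exact Submodule.subset_span ⟨g * h, K.mul_mem hg hh, a * b, mono_mul _ _ _ _⟩
    | zero_left y hy => simp
    | zero_right x hx => simp
    | add_left x y z _ _ _ h1 h2 => rw [add_mul]; exact Submodule.add_mem _ h1 h2
    | add_right x y z _ _ _ h1 h2 => rw [mul_add]; exact Submodule.add_mem _ h1 h2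
    | smul_left r x y _ _ h => rw [smul_mul_assoc]; exact Submodule.smul_mem _ _ h
    | smul_right r x y _ _ h => rw [mul_smul_comm]; exact Submodule.smul_mem _ _ h
  one_mem' := Submodule.subset_span ⟨1, K.one_mem, 1, mono_one_one.symm⟩
  add_mem' := fun h1 h2 => Submodule.add_mem _ h1 h2
  zero_mem' := Submodule.zero_mem _
  algebraMap_mem' := by
    intro r
    rw [Algebra.algebraMap_eq_smul_one]
    exact Submodule.smul_mem _ _ (Submodule.subset_span ⟨1, K.one_mem, 1, mono_one_one.symm⟩)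
  star_mem' := by
    intro S hS
    induction hS using Submodule.span_induction with
    | mem x hx =>
      obtain ⟨g, hg, a, rfl⟩ := hx
      exact Submodule.subset_span ⟨g⁻¹, K.inv_mem hg, star a, star_mono _ _⟩
    | zero => simp
    | add x y _ _ h1 h2 => rw [star_add]; exact Submodule.add_mem _ h1 h2
    | smul r x _ h => rw [star_smul]; exact Submodule.smul_mem _ _ h

/-- the closure: `C*_r(K) ⊗ B(ℓ²(I))` inside `B(ℓ²(G × I))` -/
noncomputable def Alg (K : Subgroup G) (I : Type) : StarSubalgebra ℂ (B (G × I)) :=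
  (A0 K I).topologicalClosure

theorem mono_mem {K : Subgroup G} {g : G} (hg : g ∈ K) (a : B I) : mono g a ∈ Alg K I :=
  (A0 K I).le_topologicalClosure (Submodule.subset_span ⟨g, hg, a, rfl⟩)

theorem iota_mem {K : Subgroup G} (a : B I) : iota G a ∈ Alg K I := by
  have h := mono_mem (G := G) K.one_mem a
  have : mono (1 : G) a = iota G a := by
    rw [mono]
    have : lt I (1 : G) = 1 := by
      ext x <;> simp [lt]
    rw [this, perm_one, one_mul]
  rwa [this] at h

theorem isClosed_alg (K : Subgroup G) (I : Type) : IsClosed (Alg K I : Set (B (G × I))) :=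
  (A0 K I).isClosed_topologicalClosure

/-- continuous linear maps which map monomials into a closed star subalgebra -/
theorem map_alg {Y : Type} {K : Subgroup G} (A : StarSubalgebra ℂ (B Y))
    (hA : IsClosed (A : Set (B Y))) (Φ : B (G × I) →L[ℂ] B Y)
    (h : ∀ g ∈ K, ∀ a : B I, Φ (mono g a) ∈ A) {T : B (G × I)} (hT : T ∈ Alg K I) : Φ T ∈ A := by
  have h1 : T ∈ closure (A0 K I : Set (B (G × I))) := by
    rw [← StarSubalgebra.topologicalClosure_coe]; exact hT
  have h2 := map_mem_closure Φ.continuous h1 (t := (A : Set (B Y))) ?_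
  · rwa [hA.closure_eq] at h2
  · intro S hS
    have hS' : S ∈ Submodule.span ℂ {T : B (G × I) | ∃ g ∈ K, ∃ a : B I, T = mono g a} := hS
    induction hS' using Submodule.span_induction with
    | mem x hx =>
      obtain ⟨g, hg, a, rfl⟩ := hx
      exact h g hg a
    | zero => simp
    | add x y hx hy h1 h2 => rw [map_add]; exact A.add_mem (h1 hx) (h2 hy)
    | smul r x hx h => rw [map_smul]; exact A.smul_mem (h hx) r

/-- entry conditions -/
theorem alg_induct {K : Subgroup G} (q : B (G × I) →L[ℂ] ℂ)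
    (h : ∀ g ∈ K, ∀ a : B I, q (mono g a) = 0) {T : B (G × I)} (hT : T ∈ Alg K I) : q T = 0 := by
  have h1 : T ∈ closure (A0 K I : Set (B (G × I))) := by
    rw [← StarSubalgebra.topologicalClosure_coe]; exact hT
  have h2 := map_mem_closure q.continuous h1 (t := ({0} : Set ℂ)) ?_
  · rwa [isClosed_singleton.closure_eq] at h2
  · intro S hS
    have hS' : S ∈ Submodule.span ℂ {T : B (G × I) | ∃ g ∈ K, ∃ a : B I, T = mono g a} := hS
    rw [Set.mem_singleton_iff]
    induction hS' using Submodule.span_induction with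
    | mem x hx =>
      obtain ⟨g, hg, a, rfl⟩ := hx
      exact h g hg a
    | zero => simp
    | add x y hx hy h1 h2 => rw [map_add, h1 hx, h2 hy, add_zero]
    | smul r x hx h => rw [map_smul, h hx, smul_zero]

/-- right invariant operators -/
def RInv (T : B (G × I)) : Prop := ∀ (g x y : G) (i j : I), ent T (x * g, i) (y * g, j) = ent T (x, i) (y, j)

/-- supported on a subgroup -/
def Supp (K : Subgroup G) (T : B (G × I)) : Prop :=
  ∀ (x y : G) (i j : I), x * y⁻¹ ∉ K → ent T (x, i) (y, j) = 0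

theorem alg_rinv {K : Subgroup G} {T : B (G × I)} (hT : T ∈ Alg K I) : RInv T := by
  classical
  intro g x y i j
  have := alg_induct (K := K) (entL (x * g, i) (y * g, j) - entL (x, i) (y, j)) ?_ hT
  · simpa [entL_apply, sub_eq_zero] using this
  · intro h _ a
    simp only [sub_apply, entL_apply, ent_mono]
    rw [← mul_assoc]
    simp only [mul_left_inj, sub_self]

theorem alg_supp {K : Subgroup G} {T : B (G × I)} (hT : T ∈ Alg K I) : Supp K T := by
  classical
  intro x y i j hxy
  have := alg_induct (K := K) (entL (x, i) (y, j)) ?_ hT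
  · simpa [entL_apply] using this
  · intro h hh a
    rw [entL_apply, ent_mono, if_neg]
    rintro rfl
    simp [hh] at hxy

theorem alg_le {K K' : Subgroup G} (h : K ≤ K') {T : B (G × I)} (hT : T ∈ Alg K I) : T ∈ Alg K' I :=
  map_alg (Alg K' I) (isClosed_alg K' I) (ContinuousLinearMap.id ℂ _)
    (fun g hg a => mono_mem (h hg) a) hT

/-- the trace -/
noncomputable def TR (T : B (G × I)) : ℝ≥0∞ := ∑' i, ENNReal.ofReal (ent T (1, i) (1, i)).re

end grp

end Pool.Agent.H812R3.KP
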